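import Pool.Agent.H660R2.Cfg.Main

/-!
# Characteristic samples for context-free grammars counted by strings: a positive answer
-/

namespace Pool.Agent.Results.MP_35a6f4_lc.CountLearner

open Pool.Agent.NPC.H660 Pool.Agent.H660R2.Cfg

/-- For every finite alphabet there are a polynomial-time learner `A` for context-free grammars and
a polynomial `q` such that every context-free grammar `G` has a characteristic sample with respect
to `A` with at most `q ‖G‖` strings. -/
theorem result (k : ℕ) : ∃ A : Sample k → Gram k, IsLearner A ∧ ∃ q : Polynomial ℕ,
    ∀ G : ContextFreeGrammar (Fin k), ∃ CS : Finset (Word k) × Finset (Word k),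
      IsCharacteristic A CS G.language ∧ CS.1.card + CS.2.card ≤ q.eval (gsize G) :=
  main k

end Pool.Agent.Results.MP_35a6f4_lc.CountLearner
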